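import Pool.Agent.BR3.Uni64
import Pool.Agent.BR3.V146
import Pool.Agent.BR3.V089
import Pool.Agent.BR3.T83
import Pool.Agent.BR3.S92
import Pool.Agent.BR3.F75
import Pool.Agent.BR3.Up62

/-!
# MP_5de915_nt: the number of elements of breadth three has order `(log n) ^ 3` in most rows

`Br l x y` says that `(x, y)` is obtained from `(1, 1)` by a word in `G (x, y) = (x + y, y)` and
`S (x, y) = (3 x - 2 y + 1, 2 x - y + 1)` with exactly `l` letters `G`, and `c n` is the number of
integers `k` with `Br 3 n k`, that is, the number of elements of breadth exactly three in row `n`.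

There are `δ > 0` and `B` such that for all integers `N ≥ 2` and `z ≥ 3` all `n ≤ N` with at most
`B N (log z) ^ 6 (1 / z + 1 / (log N) ^ 3)` exceptions satisfy
`δ (log N / log z) ^ 3 ≤ c n ≤ z (log N) ^ 3`.

Constant `z`: the order `(log n) ^ 3` outside an arbitrarily small proportion of the rows;
`z` about `(log N) ^ 3`: `c n ≥ δ' (log N) ^ 3 / (log log N) ^ 3` with at most
`B' N (log log N) ^ 6 / (log N) ^ 3` exceptions.
-/

open Finset
open Pool.Agent.Helper64.Breadth

namespace Pool.Agent.Results.MP_5de915_nt.LogCubedRows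

theorem result : ∃ δ B : ℝ, 0 < δ ∧ ∀ N z : ℕ, 2 ≤ N → 3 ≤ z →
    (((Icc 1 N).filter (fun n : ℕ => ¬ (δ * (Real.log N / Real.log z) ^ 3 ≤ (c n : ℝ) ∧
        (c n : ℝ) ≤ z * Real.log N ^ 3))).card : ℝ) ≤
      B * N * Real.log z ^ 6 * (1 / z + 1 / Real.log N ^ 3) :=
  Pool.Agent.BR3.Uni64.uni_of Pool.Agent.BR3.rowT83 Pool.Agent.BR3.S92.rowS92
    Pool.Agent.BR3.V146.rowV146 Pool.Agent.BR3.V089.v0 Pool.Agent.BR3.F75.rowF Pool.Agent.BR3.Up62.up62

end Pool.Agent.Results.MP_5de915_nt.LogCubedRows
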