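import Pool.Agent.BR5.Fin64

/-!
# MP_5de915_nt: rows with few elements of breadth three are rarer than any power of the logarithm

`Br l x y` says that `(x, y)` is obtained from `(1, 1)` by a word in `G (x, y) = (x + y, y)` and
`S (x, y) = (3 x - 2 y + 1, 2 x - y + 1)` with exactly `l` letters `G`, and `c n` is the number of
integers `k` with `Br 3 n k`, that is, the number of elements of breadth exactly three in row `n`.

For every `A` there is `B` such that for every integer `x ≥ 2` all `n ≤ x` with at most
`B x / (log x) ^ A` exceptions satisfy `c n ≥ (log x) ^ (1 / 512)`.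
-/

open Finset
open Pool.Agent.Helper64.Breadth

namespace Pool.Agent.Results.MP_5de915_nt.SmallExceptionalSet

theorem result : ∀ A : ℕ, ∃ B : ℝ, ∀ x : ℕ, 2 ≤ x →
    (((Icc 1 x).filter (fun n : ℕ => (c n : ℝ) < Real.log x ^ ((1 : ℝ) / 512))).card : ℝ) ≤
      B * x / Real.log x ^ A :=
  Pool.Agent.BR5.Fin64.fin64

end Pool.Agent.Results.MP_5de915_nt.SmallExceptionalSet
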